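import Mathlib

/-!
# Remez inequalities for polynomials of one variable

Elementary forms by Lagrange interpolation. The constants are not optimal.
-/

set_option autoImplicit false

namespace Pool.REM

open Finset Polynomial MeasureTheory

/-- Lagrange bound: a polynomial of degree at most `d` which is bounded by `B` at `d + 1` points
with mutual distances at least `s` is bounded by `(d + 1) (L / s) ^ d B` at all points at distance
at most `L` of these points. -/
theorem lag (p : ℝ[X]) (d : ℕ) (hd : p.natDegree ≤ d) (x : Fin (d + 1) → ℝ) {s L B : ℝ}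
    (hs : 0 < s) (hsep : ∀ i j, i ≠ j → s ≤ |x i - x j|) (hB : ∀ i, |p.eval (x i)| ≤ B) (y : ℝ)
    (hy : ∀ i, |y - x i| ≤ L) : |p.eval y| ≤ (d + 1) * (L / s) ^ d * B := by
  classical
  have hinj : Set.InjOn x (univ : Finset (Fin (d + 1))) := by
    intro i _ j _ hij
    by_contra hne
    have := hsep i j hne
    rw [hij, sub_self, abs_zero] at this
    linarith
  have hdeg : p.degree < ((univ : Finset (Fin (d + 1))).card : ℕ) := by
    rw [Finset.card_univ, Fintype.card_fin]
    refine lt_of_le_of_lt Polynomial.degree_le_natDegree ?_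
    exact_mod_cast Nat.lt_succ_of_le hd
  have hint := Lagrange.eq_interpolate hinj hdeg
  have hev : p.eval y = ∑ i, p.eval (x i) * ∏ j ∈ univ.erase i, ((y - x j) / (x i - x j)) := by
    conv_lhs => rw [hint]
    rw [Lagrange.interpolate_apply, Polynomial.eval_finsetSum]
    refine Finset.sum_congr rfl fun i _ => ?_
    rw [Polynomial.eval_mul, Polynomial.eval_C, Lagrange.basis, Polynomial.eval_prod]
    congr 1
    refine Finset.prod_congr rfl fun j _ => ?_
    rw [Lagrange.basisDivisor, Polynomial.eval_mul, Polynomial.eval_C, Polynomial.eval_sub,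
      Polynomial.eval_X, Polynomial.eval_C]
    rw [div_eq_inv_mul]
  have hL : 0 ≤ L := (abs_nonneg _).trans (hy 0)
  rw [hev]
  refine (Finset.abs_sum_le_sum_abs _ _).trans ?_
  have hterm : ∀ i ∈ (univ : Finset (Fin (d + 1))),
      |p.eval (x i) * ∏ j ∈ univ.erase i, ((y - x j) / (x i - x j))| ≤ B * (L / s) ^ d := by
    intro i _
    rw [abs_mul, Finset.abs_prod]
    have hprod : ∏ j ∈ univ.erase i, |(y - x j) / (x i - x j)| ≤ (L / s) ^ d := by
      have hcard : (univ.erase i).card = d := by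
        rw [Finset.card_erase_of_mem (Finset.mem_univ i), Finset.card_univ, Fintype.card_fin]
        rfl
      refine le_of_le_of_eq (Finset.prod_le_prod (g := fun _ => L / s)
        (fun _ _ => abs_nonneg _) fun j hj => ?_) (by rw [Finset.prod_const, hcard])
      rw [abs_div]
      have hne : i ≠ j := (Finset.ne_of_mem_erase hj).symm
      exact div_le_div₀ hL (hy j) hs (hsep i j hne)
    exact mul_le_mul (hB i) hprod (Finset.prod_nonneg fun _ _ => abs_nonneg _)
      ((abs_nonneg _).trans (hB i))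
  refine (Finset.sum_le_sum hterm).trans ?_
  rw [Finset.sum_const, Finset.card_univ, Fintype.card_fin, nsmul_eq_mul]
  push_cast
  linarith

/-- Gaps of a strictly increasing sequence of integers. -/
theorem gap {k : ℕ} {f : Fin k → ℤ} (hf : StrictMono f) :
    ∀ n : ℕ, ∀ i j : Fin k, (j : ℕ) = i + n → (n : ℤ) ≤ f j - f i := by
  intro n
  induction n with
  | zero =>
    intro i j h
    have : i = j := Fin.ext (by omega)
    simp [this]
  | succ n ih =>
    intro i j h
    have hj := j.2
    have h1 := ih i ⟨i + n, by omega⟩ rfl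
    have h2 : f ⟨i + n, by omega⟩ < f j := hf (by
      rw [Fin.lt_def]
      simp only
      omega)
    push_cast
    linarith

/-- Points of a finite set of integers which are far from each other. -/
theorem spread (E : Finset ℤ) (d : ℕ) : ∃ x : Fin (d + 1) → ℤ,
    (d + 1 ≤ E.card → ∀ i, x i ∈ E) ∧ (d + 1 ≤ E.card → ∀ i j, i ≠ j →
      ((E.card / (d + 1) : ℕ) : ℤ) ≤ |x i - x j|) := by
  by_cases hc : d + 1 ≤ E.card
  · set k := E.card / (d + 1) with hk
    have hk1 : 1 ≤ k := (Nat.one_le_div_iff (by omega)).mpr hc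
    have hkd : (d + 1) * k ≤ E.card := by rw [hk]; exact Nat.mul_div_le _ _
    have hlt : ∀ i : Fin (d + 1), (i : ℕ) * k < E.card := by
      intro i
      have hi := i.2
      have : ((i : ℕ) + 1) * k ≤ (d + 1) * k := Nat.mul_le_mul_right k hi
      nlinarith
    set f := E.orderEmbOfFin rfl with hf
    have hmono : StrictMono f := f.strictMono
    refine ⟨fun i => f ⟨i * k, hlt i⟩, fun _ i => Finset.orderEmbOfFin_mem E rfl _, ?_⟩
    intro _ i j hij
    have key : ∀ i j : Fin (d + 1), i < j → (k : ℤ) ≤ f ⟨j * k, hlt j⟩ - f ⟨i * k, hlt i⟩ := by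
      intro i j hlt'
      have h1 : (i : ℕ) * k ≤ j * k := Nat.mul_le_mul_right k hlt'.le
      have h2 := gap hmono (j * k - i * k) ⟨i * k, hlt i⟩ ⟨j * k, hlt j⟩ (by simp only; omega)
      refine le_trans ?_ h2
      have h3 : ((i : ℕ) + 1) * k ≤ j * k := Nat.mul_le_mul_right k hlt'
      have h4 : k ≤ j * k - i * k := by
        rw [Nat.add_mul, Nat.one_mul] at h3
        omega
      exact_mod_cast h4
    rcases lt_or_gt_of_ne hij with h | h
    · rw [abs_sub_comm]
      exact (key i j h).trans (le_abs_self _)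
    · exact (key j i h).trans (le_abs_self _)
  · exact ⟨fun _ => 0, fun h => absurd h hc, fun h => absurd h hc⟩

/-- **Remez inequality on a grid.** If `|p| ≤ B` on a set `E` of at least `d + 1` points of the
grid `h ℤ`, then `|p| ≤ (d + 1) (2 (d + 1) L / (h card E)) ^ d B` at all points at distance at
most `L` of all points of `E`. -/
theorem grid (p : ℝ[X]) (d : ℕ) (hd : p.natDegree ≤ d) (E : Finset ℤ) (hE : d + 1 ≤ E.card)
    {h L B : ℝ} (hh : 0 < h) (hB : ∀ e ∈ E, |p.eval (h * (e : ℝ))| ≤ B) (y : ℝ)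
    (hy : ∀ e ∈ E, |y - h * (e : ℝ)| ≤ L) :
    |p.eval y| ≤ (d + 1) * (2 * (d + 1) * L / (h * E.card)) ^ d * B := by
  obtain ⟨x, hx1, hx2⟩ := spread E d
  have hk1 : 1 ≤ E.card / (d + 1) := (Nat.one_le_div_iff (by omega)).mpr hE
  have hk1' : (1 : ℝ) ≤ ((E.card / (d + 1) : ℕ) : ℝ) := by exact_mod_cast hk1
  have hlow : (E.card : ℝ) / (2 * (d + 1)) ≤ ((E.card / (d + 1) : ℕ) : ℝ) := by
    rw [div_le_iff₀ (by positivity)]
    have h1 : E.card < (E.card / (d + 1) + 1) * (d + 1) := by
      have h2 := Nat.div_add_mod E.card (d + 1)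
      have h3 := Nat.mod_lt E.card (Nat.succ_pos d)
      nlinarith
    have h2 : (E.card : ℝ) < (((E.card / (d + 1) : ℕ) : ℝ) + 1) * (d + 1) := by exact_mod_cast h1
    nlinarith
  have hL : 0 ≤ L := (abs_nonneg _).trans (hy _ (hx1 hE 0))
  have hcpos : (0 : ℝ) < E.card := by
    have : 0 < E.card := by omega
    exact_mod_cast this
  have hs : 0 < h * ((E.card : ℝ) / (2 * (d + 1))) := by positivity
  have hB0 : 0 ≤ B := (abs_nonneg _).trans (hB _ (hx1 hE 0))
  have := lag p d hd (fun i => h * (x i : ℝ)) (s := h * ((E.card : ℝ) / (2 * (d + 1)))) (L := L)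
    (B := B) hs ?_ (fun i => hB _ (hx1 hE i)) y (fun i => hy _ (hx1 hE i))
  · refine this.trans (le_of_eq ?_)
    congr 2
    field_simp
  · intro i j hij
    have h1 := hx2 hE i j hij
    have h2 : ((E.card / (d + 1) : ℕ) : ℝ) ≤ |(x i : ℝ) - x j| := by
      have h3 : (((E.card / (d + 1) : ℕ) : ℤ) : ℝ) ≤ ((|x i - x j| : ℤ) : ℝ) :=
        Int.cast_le.mpr h1
      rw [Int.cast_natCast, Int.cast_abs, Int.cast_sub] at h3
      exact h3
    rw [← mul_sub, abs_mul, abs_of_pos hh]
    exact mul_le_mul_of_nonneg_left (hlow.trans h2) hh.le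

/-- Remez inequality for the times `j / N`, `j < N`: if `|p| ≤ B` at a proportion `ρ` of them,
then `|p| ≤ (d + 1) (2 (d + 1) R / ρ) ^ d B` on `[-R + 1, R]`. -/
theorem times (p : ℝ[X]) (d N : ℕ) (hd : p.natDegree ≤ d) (E : Finset (Fin N))
    (hE : d + 1 ≤ E.card) {B R ρ : ℝ} (hρ : 0 < ρ) (hR : 1 ≤ R) (hcard : ρ * N ≤ E.card)
    (hB : ∀ j ∈ E, |p.eval (((j : ℕ) : ℝ) / N)| ≤ B) (y : ℝ) (h0 : 1 - R ≤ y) (h1 : y ≤ R) :
    |p.eval y| ≤ (d + 1) * (2 * (d + 1) * R / ρ) ^ d * B := by
  classical
  have hNpos : 0 < N := by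
    rcases Nat.eq_zero_or_pos N with h | h
    · subst h
      have : E = ∅ := Finset.eq_empty_of_isEmpty E
      rw [this] at hE
      simp at hE
    · exact h
  have hN : (0 : ℝ) < N := by exact_mod_cast hNpos
  set F : Finset ℤ := E.image (fun j : Fin N => ((j : ℕ) : ℤ)) with hF
  have hinj : Function.Injective (fun j : Fin N => ((j : ℕ) : ℤ)) := by
    intro a b hab
    exact Fin.ext (Int.natCast_inj.mp hab)
  have hcF : F.card = E.card := Finset.card_image_of_injective _ hinj
  have hB0 : 0 ≤ B := by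
    obtain ⟨j, hj⟩ := Finset.card_pos.mp (lt_of_lt_of_le (Nat.succ_pos d) hE)
    exact (abs_nonneg _).trans (hB j hj)
  have key := grid p d hd F (by rw [hcF]; exact hE) (h := (N : ℝ)⁻¹) (L := R) (B := B)
    (by positivity) ?_ y ?_
  · refine key.trans ?_
    rw [hcF]
    refine mul_le_mul_of_nonneg_right ?_ hB0
    refine mul_le_mul_of_nonneg_left ?_ (by positivity)
    refine pow_le_pow_left₀ (by positivity) ?_ d
    have hcpos : 0 < (N : ℝ)⁻¹ * E.card := by
      have : (0 : ℝ) < E.card := by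
        have : 0 < E.card := by omega
        exact_mod_cast this
      positivity
    refine div_le_div_of_nonneg_left (by positivity) hρ ?_
    rw [inv_mul_eq_div, le_div_iff₀ hN]
    exact hcard
  · intro e he
    obtain ⟨j, hj, rfl⟩ := Finset.mem_image.mp he
    rw [inv_mul_eq_div, Int.cast_natCast]
    exact hB j hj
  · intro e he
    obtain ⟨j, hj, rfl⟩ := Finset.mem_image.mp he
    have hj1 : ((j : ℕ) : ℝ) ≤ N := by exact_mod_cast j.2.le
    have hj2 : (0 : ℝ) ≤ ((j : ℕ) : ℝ) / N := by positivity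
    have hj3 : ((j : ℕ) : ℝ) / N ≤ 1 := by rw [div_le_one hN]; exact hj1
    push_cast
    rw [inv_mul_eq_div, abs_le]
    constructor <;> linarith

end Pool.REM
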