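import Pool.Agent.H73.REM.Basic

/-!
# Remez inequality for sets of positive measure
-/

set_option autoImplicit false

namespace Pool.REM

open Polynomial MeasureTheory Set

/-- Measure of the part of `E` on the left of `x`. -/
noncomputable def lm (E : Set ℝ) (x : ℝ) : ℝ := (volume (E ∩ Iic x)).toReal

theorem lm_add {E : Set ℝ} (hE : volume E ≠ ⊤) {x y : ℝ} (h : x ≤ y) :
    lm E y = lm E x + (volume (E ∩ Ioc x y)).toReal := by
  have h1 : E ∩ Iic y = (E ∩ Iic x) ∪ (E ∩ Ioc x y) := by
    rw [← inter_union_distrib_left, Iic_union_Ioc_eq_Iic h]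
  have f1 : volume (E ∩ Iic x) ≠ ⊤ := ne_top_of_le_ne_top hE (measure_mono inter_subset_left)
  have f2 : volume (E ∩ Ioc x y) ≠ ⊤ := ne_top_of_le_ne_top hE (measure_mono inter_subset_left)
  have h2 : volume (E ∩ Iic y) = volume (E ∩ Iic x) + volume (E ∩ Ioc x y) := by
    have e1 := measure_inter_add_sdiff (μ := volume) (E ∩ Iic y) (measurableSet_Iic (a := x))
    rw [← e1]
    congr 2
    · rw [inter_assoc, Iic_inter_Iic, min_eq_right h]
    · ext z
      simp only [mem_sdiff, mem_inter_iff, mem_Iic, not_le, mem_Ioc]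
      tauto
  unfold lm
  rw [h2, ENNReal.toReal_add f1 f2]

theorem lm_le {E : Set ℝ} (hE : volume E ≠ ⊤) {x y : ℝ} (h : x ≤ y) :
    lm E x ≤ lm E y ∧ lm E y ≤ lm E x + (y - x) := by
  rw [lm_add hE h]
  refine ⟨le_add_of_nonneg_right ENNReal.toReal_nonneg, ?_⟩
  have h1 : volume (E ∩ Ioc x y) ≤ ENNReal.ofReal (y - x) := by
    rw [← Real.volume_Ioc]
    exact measure_mono inter_subset_right
  have := ENNReal.toReal_mono ENNReal.ofReal_ne_top h1
  rw [ENNReal.toReal_ofReal (by linarith)] at this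
  linarith

theorem lm_cont {E : Set ℝ} (hE : volume E ≠ ⊤) : Continuous (lm E) := by
  have : LipschitzWith 1 (lm E) := by
    refine LipschitzWith.of_dist_le_mul fun x y => ?_
    rw [Real.dist_eq, Real.dist_eq, NNReal.coe_one, one_mul]
    rcases le_total x y with h | h
    · have := lm_le hE h
      rw [abs_sub_comm, abs_sub_comm x y, abs_of_nonneg (by linarith), abs_of_nonneg (by linarith)]
      linarith
    · have := lm_le hE h
      rw [abs_of_nonneg (by linarith), abs_of_nonneg (by linarith)]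
      linarith
  exact this.continuous

/-- Points of a set of positive measure which are far from each other. -/
theorem spread_meas {E : Set ℝ} {a b : ℝ} (hE : E ⊆ Icc a b) (d : ℕ)
    (hpos : 0 < (volume E).toReal) : ∃ x : Fin (d + 1) → ℝ, (∀ i, x i ∈ E) ∧
      ∀ i j, i ≠ j → (volume E).toReal / (2 * d + 1) ≤ |x i - x j| := by
  classical
  have hfin : volume E ≠ ⊤ := ne_top_of_le_ne_top (by
    rw [Real.volume_Icc]; exact ENNReal.ofReal_ne_top) (measure_mono hE)
  set v := (volume E).toReal with hv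
  have hab : a ≤ b := by
    by_contra hc
    have : E = ∅ := by
      rw [Set.Icc_eq_empty hc] at hE
      exact subset_empty_iff.mp hE
    rw [hv, this] at hpos
    simp at hpos
  have ha : lm E a = 0 := by
    unfold lm
    have : volume (E ∩ Iic a) = 0 := by
      refine measure_mono_null (t := {a}) ?_ Real.volume_singleton
      rintro z ⟨hz, hz'⟩
      exact le_antisymm hz' (hE hz).1
    rw [this]; rfl
  have hb : lm E b = v := by
    unfold lm
    have e : E ∩ Iic b = E := inter_eq_left.mpr fun z hz => (hE hz).2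
    rw [e]
  have hex : ∀ α : ℝ, 0 ≤ α → α ≤ v → ∃ x ∈ Icc a b, lm E x = α := by
    intro α h0 h1
    have := intermediate_value_Icc hab (lm_cont hfin).continuousOn
    rw [ha, hb] at this
    exact this ⟨h0, h1⟩
  have hmono : Monotone (lm E) := fun x y h => (lm_le hfin h).1
  have hpt : ∀ α β : ℝ, 0 ≤ α → α < β → β ≤ v → ∃ x ∈ E, α ≤ lm E x ∧ lm E x ≤ β := by
    intro α β h0 h1 h2
    obtain ⟨x, hx, ex⟩ := hex α h0 (h1.le.trans h2)
    obtain ⟨y, hy, ey⟩ := hex β (h0.trans h1.le) h2
    have hxy : x ≤ y := by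
      by_contra hc
      have := hmono (not_le.mp hc).le
      linarith
    have h3 := lm_add hfin hxy
    have h4 : 0 < (volume (E ∩ Ioc x y)).toReal := by linarith
    have h5 : (E ∩ Ioc x y).Nonempty := by
      by_contra hc
      rw [not_nonempty_iff_eq_empty.mp hc] at h4
      simp at h4
    obtain ⟨z, hz, hz'⟩ := h5
    exact ⟨z, hz, by rw [← ex]; exact hmono hz'.1.le, by rw [← ey]; exact hmono hz'.2⟩
  set h := v / (2 * d + 1) with hh
  have hhpos : 0 < h := by positivity
  have hhv : h * (2 * d + 1) = v := by rw [hh]; field_simp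
  have hch : ∀ i : Fin (d + 1), ∃ x ∈ E, 2 * (i : ℕ) * h ≤ lm E x ∧ lm E x ≤ (2 * (i : ℕ) + 1) * h := by
    intro i
    refine hpt _ _ (by positivity) (by nlinarith) ?_
    have hi : ((i : ℕ) : ℝ) ≤ d := by exact_mod_cast Nat.lt_succ_iff.mp i.2
    rw [← hhv, mul_comm h]
    exact mul_le_mul_of_nonneg_right (by linarith) hhpos.le
  choose x hx h1 h2 using hch
  refine ⟨x, hx, ?_⟩
  have key : ∀ i j : Fin (d + 1), i < j → h ≤ |x i - x j| := by
    intro i j hij
    have hij' : ((i : ℕ) : ℝ) + 1 ≤ (j : ℕ) := by exact_mod_cast hij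
    have a1 := h2 i
    have a2 := h1 j
    have a3 : (2 * ((i : ℕ) : ℝ) + 1) * h + h ≤ 2 * (j : ℕ) * h := by nlinarith
    have a4 : lm E (x i) + h ≤ lm E (x j) := by linarith
    have hlt : x i ≤ x j := by
      by_contra hc
      have := hmono (not_le.mp hc).le
      linarith
    have a5 := (lm_le hfin hlt).2
    rw [abs_sub_comm]
    exact (by linarith : h ≤ x j - x i).trans (le_abs_self _)
  intro i j hij
  rcases lt_or_gt_of_ne hij with h' | h'
  · exact key i j h'
  · rw [abs_sub_comm]; exact key j i h'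

/-- **Remez inequality.** -/
theorem remez (p : ℝ[X]) (d : ℕ) (hd : p.natDegree ≤ d) {E : Set ℝ} {a b L B : ℝ}
    (hE : E ⊆ Icc a b) (hpos : 0 < (volume E).toReal) (hB : ∀ x ∈ E, |p.eval x| ≤ B) (y : ℝ)
    (hy : ∀ x ∈ E, |y - x| ≤ L) :
    |p.eval y| ≤ (d + 1) * ((2 * d + 1) * L / (volume E).toReal) ^ d * B := by
  obtain ⟨x, hx, hsep⟩ := spread_meas hE d hpos
  have := lag p d hd x (s := (volume E).toReal / (2 * d + 1)) (L := L) (B := B) (by positivity)
    hsep (fun i => hB _ (hx i)) y (fun i => hy _ (hx i))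
  refine this.trans (le_of_eq ?_)
  congr 2
  field_simp

/-- The set where a polynomial is small is small. -/
theorem small_meas (p : ℝ[X]) (d : ℕ) (hd1 : 1 ≤ d) (hd : p.natDegree ≤ d) {a b κ : ℝ}
    (hκ : 0 ≤ κ) (y : ℝ) (hy : y ∈ Icc a b) (hpy : p.eval y ≠ 0) :
    (volume {x ∈ Icc a b | |p.eval x| ≤ κ * |p.eval y|}).toReal ^ d ≤
      (d + 1) * ((2 * d + 1) * (b - a)) ^ d * κ := by
  set E : Set ℝ := {x ∈ Icc a b | |p.eval x| ≤ κ * |p.eval y|} with hE
  have hsub : E ⊆ Icc a b := fun x hx => hx.1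
  have hyp : 0 < |p.eval y| := abs_pos.mpr hpy
  have hab : 0 ≤ b - a := by linarith [hy.1, hy.2]
  rcases (ENNReal.toReal_nonneg : 0 ≤ (volume E).toReal).eq_or_lt with h0 | hpos
  · rw [← h0, zero_pow (by omega)]
    positivity
  · have hr := remez p d hd hsub hpos (B := κ * |p.eval y|) (fun x hx => hx.2) y (L := b - a)
      (fun x hx => by
        have h1 := (hsub hx).1
        have h2 := (hsub hx).2
        rw [abs_le]; constructor <;> linarith [hy.1, hy.2])
    have h3 : (1 : ℝ) ≤ (d + 1) * ((2 * d + 1) * (b - a) / (volume E).toReal) ^ d * κ := by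
      rw [← mul_assoc] at hr
      by_contra hc
      have := mul_lt_mul_of_pos_right (not_le.mp hc) hyp
      linarith
    rw [div_pow, mul_div_assoc', div_mul_eq_mul_div, le_div_iff₀ (by positivity), one_mul] at h3
    exact h3

end Pool.REM
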